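import Pool.Agent.Q5.RG.Gal
import Pool.Agent.Q5.RG.PQ

/-! The ascent of the isomorphism given by the regulator. -/

set_option autoImplicit false
set_option linter.unusedSectionVars false

namespace Pool.Agent.Q5.RG

open Module
open Pool.Agent.Q5.SO (fq)
open scoped Classical

section
variable {k R Γ : Type} [Field k] [Field R] [Algebra k R] [Group Γ]

/-- the restriction of the spaces to a subgroup -/
def Datum.res (M : Datum k R Γ) (Γ' : Subgroup Γ) : Datum k R Γ' where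
  V := M.V
  B := M.B
  Φ := M.Φ
  U := M.U
  ρV := M.ρV.comp Γ'.subtype
  ρB := M.ρB.comp Γ'.subtype
  ρΦ := M.ρΦ.comp Γ'.subtype
  ρU := M.ρU.comp Γ'.subtype
  η := M.η
  φ := M.φ
  S := M.S
  r := M.r
  hη := fun g x => M.hη g x
  hφ := fun g x => M.hφ g x
  hr := fun g v u h => M.hr g v u h

theorem inv_res {V : Type} [AddCommGroup V] [Module k V] (ρ : Representation k Γ V)
    {Γ' Δ : Subgroup Γ} (h : Δ ≤ Γ') : inv (ρ.comp Γ'.subtype) (Δ.subgroupOf Γ') = inv ρ Δ := by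
  ext v
  constructor
  · intro hv g hg
    exact hv ⟨g, h hg⟩ hg
  · intro hv g hg
    exact hv g.1 hg

/-- regulators for given subspaces -/
def IsRegW (M : Datum k R Γ) (WV : Submodule k M.V) (WΦ : Submodule k M.Φ) (WB : Submodule k M.B)
    (WU : Submodule R M.U) (c : R) : Prop :=
  c ≠ 0 ∧ ∃ (p q : ℕ) (a : Basis (Fin p) k WV) (f : Basis (Fin q) k WΦ)
    (b : Basis (Fin p ⊕ Fin q) k WB) (x : Fin p → M.U)
    (C : Matrix (Fin p ⊕ Fin q) (Fin p ⊕ Fin q) R),
    (∀ l, x l ∈ WU ∧ M.S.mkQ (x l) = M.r (a l)) ∧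
    (∀ m, Sum.elim x (fun l => M.φ (f l)) m = ∑ l, C l m • M.η (b l)) ∧ C.det = c

theorem isRegW_iff (M : Datum k R Γ) (Δ : Subgroup Γ) (c : R) : IsReg M Δ c ↔
    IsRegW M (inv M.ρV Δ) (inv M.ρΦ Δ) (inv M.ρB Δ) (inv M.ρU Δ) c := Iff.rfl

theorem isReg_res (M : Datum k R Γ) {Γ' Δ : Subgroup Γ} (h : Δ ≤ Γ') (c : R) :
    IsReg (M.res Γ') (Δ.subgroupOf Γ') c ↔ IsReg M Δ c := by
  have h1 : IsReg (M.res Γ') (Δ.subgroupOf Γ') c ↔
      IsRegW M (inv (M.ρV.comp Γ'.subtype) (Δ.subgroupOf Γ'))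
        (inv (M.ρΦ.comp Γ'.subtype) (Δ.subgroupOf Γ'))
        (inv (M.ρB.comp Γ'.subtype) (Δ.subgroupOf Γ'))
        (inv (M.ρU.comp Γ'.subtype) (Δ.subgroupOf Γ')) c := Iff.rfl
  rw [h1, isRegW_iff, inv_res M.ρV h, inv_res M.ρΦ h, inv_res M.ρB h, inv_res M.ρU h]

theorem goodAt_res {M : Datum k R Γ} {Γ' Δ : Subgroup Γ} (h : Δ ≤ Γ') (hg : GoodAt M Δ) :
    GoodAt (M.res Γ') (Δ.subgroupOf Γ') where
  fin := by
    change FiniteDimensional k (inv (M.ρB.comp Γ'.subtype) (Δ.subgroupOf Γ'))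
    rw [inv_res M.ρB h]
    exact hg.fin
  span := by
    intro u hu
    change u ∈ inv (M.ρU.comp Γ'.subtype) (Δ.subgroupOf Γ') at hu
    rw [inv_res M.ρU h] at hu
    change u ∈ Submodule.span R (M.η '' (inv (M.ρB.comp Γ'.subtype) (Δ.subgroupOf Γ') : Set M.B))
    rw [inv_res M.ρB h]
    exact hg.span u hu
  deR := by
    intro u hu hS
    change u ∈ inv (M.ρU.comp Γ'.subtype) (Δ.subgroupOf Γ') at hu
    rw [inv_res M.ρU h] at hu
    change u ∈ Submodule.span R (M.φ '' (inv (M.ρΦ.comp Γ'.subtype) (Δ.subgroupOf Γ') : Set M.Φ))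
    rw [inv_res M.ρΦ h]
    exact hg.deR u hu hS

theorem indepB_res {M : Datum k R Γ} {Γ' : Subgroup Γ} (h : IndepB M) : IndepB (M.res Γ') :=
  fun κ _ w hw => h κ w hw

/-- conjugate subgroups -/
noncomputable def conjInv {k V : Type} [Field k] [AddCommGroup V] [Module k V]
    (ρ : Representation k Γ V) {Δ Δ' : Subgroup Γ} (g : Γ) (h : ∀ x, x ∈ Δ ↔ g * x * g⁻¹ ∈ Δ') :
    inv ρ Δ ≃ₗ[k] inv ρ Δ' where
  toFun u := ⟨ρ g u.1, fun x hx => by
    have h1 : g⁻¹ * x * g ∈ Δ := (h _).2 (by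
      have : g * (g⁻¹ * x * g) * g⁻¹ = x := by group
      rwa [this])
    have h2 : ρ x (ρ g u.1) = ρ g (ρ (g⁻¹ * x * g) u.1) := by
      rw [← Module.End.mul_apply, ← Module.End.mul_apply, ← map_mul, ← map_mul]
      congr 2
      group
    rw [h2, u.2 _ h1]⟩
  invFun u := ⟨ρ g⁻¹ u.1, fun x hx => by
    have h1 : g * x * g⁻¹ ∈ Δ' := (h _).1 hx
    have h2 : ρ x (ρ g⁻¹ u.1) = ρ g⁻¹ (ρ (g * x * g⁻¹) u.1) := by
      rw [← Module.End.mul_apply, ← Module.End.mul_apply, ← map_mul, ← map_mul]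
      congr 2
      group
    rw [h2, u.2 _ h1]⟩
  map_add' := fun u v => Subtype.ext (map_add _ _ _)
  map_smul' := fun c u => Subtype.ext (map_smul _ _ _)
  left_inv := fun u => Subtype.ext (by
    change ρ g⁻¹ (ρ g u.1) = u.1
    rw [← Module.End.mul_apply, ← map_mul, inv_mul_cancel, map_one]
    rfl)
  right_inv := fun u => Subtype.ext (by
    change ρ g (ρ g⁻¹ u.1) = u.1
    rw [← Module.End.mul_apply, ← map_mul, mul_inv_cancel, map_one]
    rfl)

theorem isReg_conj {M : Datum k R Γ} {Δ Δ' : Subgroup Γ} (g : Γ)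
    (h : ∀ x, x ∈ Δ ↔ g * x * g⁻¹ ∈ Δ') {c : R} (hc : IsReg M Δ c) : IsReg M Δ' c := by
  obtain ⟨h0, p, q, a, f, b, x, C, hx, hC, hd⟩ := hc
  refine ⟨h0, p, q, a.map (conjInv M.ρV g h), f.map (conjInv M.ρΦ g h), b.map (conjInv M.ρB g h),
    fun l => M.ρU g (x l), C, fun l => ⟨(conjInv M.ρU g h ⟨x l, (hx l).1⟩).2, ?_⟩, fun m => ?_, hd⟩
  · rw [Basis.map_apply]
    exact M.hr g (a l) (x l) (hx l).2
  · have h1 : Sum.elim (fun l => M.ρU g (x l))
        (fun l => M.φ ((f.map (conjInv M.ρΦ g h)) l : inv M.ρΦ Δ')) m =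
        M.ρU g (Sum.elim x (fun l => M.φ (f l)) m) := by
      rcases m with m | m
      · rfl
      · change M.φ ((f.map (conjInv M.ρΦ g h)) m : inv M.ρΦ Δ') = M.ρU g (M.φ (f m))
        rw [Basis.map_apply]
        exact M.hφ g (f m)
    rw [h1, hC m, map_sum]
    refine Finset.sum_congr rfl fun l _ => ?_
    rw [map_smul, Basis.map_apply]
    congr 1
    exact (M.hη g (b l)).symm

end

section
variable {k R Γ : Type} [Field k] [CharZero k] [Field R] [Algebra k R] [Group Γ] {M : Datum k R Γ}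

/-- **The ascent.** -/
theorem reg_asc (hB : IndepB M) {Δ₀ : Subgroup Γ} (g0 : GoodAt M Δ₀) {ι : Type} [Finite ι]
    {Δ : ι → Subgroup Γ} (hle : ∀ j, Δ₀ ≤ Δ j) (hg : ∀ j, GoodAt M (Δ j))
    (hΔ : ∀ j, ∃ c, IsReg M (Δ j) c) (hV : inv M.ρV Δ₀ ≤ ⨆ j, inv M.ρV (Δ j))
    (hΦ : inv M.ρΦ Δ₀ ≤ ⨆ j, inv M.ρΦ (Δ j)) (hU : inv M.ρU Δ₀ ≤ ⨆ j, inv M.ρU (Δ j))
    (hdim : FiniteDimensional k (inv M.ρV Δ₀) → FiniteDimensional k (inv M.ρΦ Δ₀) →
      finrank k (inv M.ρV Δ₀) + finrank k (inv M.ρΦ Δ₀) = finrank k (inv M.ρB Δ₀)) :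
    ∃ c, IsReg M Δ₀ c := by
  choose cj h0 p q a f b x C hx hC hd using hΔ
  have hfV : ∀ j, FiniteDimensional k (inv M.ρV (Δ j)) := fun j => Module.Finite.of_basis (a j)
  have hfΦ : ∀ j, FiniteDimensional k (inv M.ρΦ (Δ j)) := fun j => Module.Finite.of_basis (f j)
  have hfV0 : FiniteDimensional k (inv M.ρV Δ₀) := by
    have : FiniteDimensional k (⨆ j, inv M.ρV (Δ j) : Submodule k M.V) :=
      Submodule.finiteDimensional_iSup _
    exact Submodule.finiteDimensional_of_le hV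
  have hfΦ0 : FiniteDimensional k (inv M.ρΦ Δ₀) := by
    have : FiniteDimensional k (⨆ j, inv M.ρΦ (Δ j) : Submodule k M.Φ) :=
      Submodule.finiteDimensional_iSup _
    exact Submodule.finiteDimensional_of_le hΦ
  have hd0 := hdim hfV0 hfΦ0
  have hfB0 := g0.fin
  set P := finrank k (inv M.ρV Δ₀) with hP
  set Q := finrank k (inv M.ρΦ Δ₀) with hQ
  let a₀ : Basis (Fin P) k (inv M.ρV Δ₀) := finBasis k _
  let f₀ : Basis (Fin Q) k (inv M.ρΦ Δ₀) := finBasis k _
  let b₀ : Basis (Fin P ⊕ Fin Q) k (inv M.ρB Δ₀) :=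
    (finBasis k (inv M.ρB Δ₀)).reindex ((finCongr hd0.symm).trans finSumFinEquiv.symm)
  -- the lifts
  have hlift : ∀ v ∈ inv M.ρV Δ₀, ∃ u ∈ inv M.ρU Δ₀, M.S.mkQ u = M.r v := by
    intro v hv
    refine Submodule.iSup_induction (fun j => inv M.ρV (Δ j))
      (motive := fun v => ∃ u ∈ inv M.ρU Δ₀, M.S.mkQ u = M.r v) (hV hv) ?_ ?_ ?_
    · intro j v hv
      refine ⟨∑ l, algebraMap k R ((a j).repr ⟨v, hv⟩ l) • x j l,
        Submodule.sum_mem _ fun l _ => Submodule.smul_mem _ _ (inv_mono M.ρU (hle j) (hx j l).1), ?_⟩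
      have h1 : v = ∑ l, (a j).repr ⟨v, hv⟩ l • (a j l : M.V) := by
        have h2 := congrArg Subtype.val ((a j).sum_repr ⟨v, hv⟩)
        rw [Submodule.coe_sum] at h2
        exact h2.symm
      conv_rhs => rw [h1]
      rw [map_sum, map_sum]
      refine Finset.sum_congr rfl fun l _ => ?_
      rw [map_smul, (hx j l).2, LinearMap.map_smulₛₗ]
    · exact ⟨0, Submodule.zero_mem _, by rw [map_zero, map_zero]⟩
    · rintro v w ⟨u, hu, hu'⟩ ⟨u', hu1, hu1'⟩
      exact ⟨u + u', Submodule.add_mem _ hu hu1, by rw [map_add, map_add, hu', hu1']⟩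
  choose y hy hy' using fun l => hlift (a₀ l : M.V) (a₀ l).2
  let z : Fin P ⊕ Fin Q → M.U := Sum.elim y fun l => M.φ (f₀ l)
  -- the de Rham part
  have hφz : ∀ w ∈ inv M.ρΦ Δ₀, M.φ w ∈ Submodule.span R (Set.range z) := by
    intro w hw
    have h1 : w = ∑ l, f₀.repr ⟨w, hw⟩ l • (f₀ l : M.Φ) := by
      have h2 := congrArg Subtype.val (f₀.sum_repr ⟨w, hw⟩)
      rw [Submodule.coe_sum] at h2
      exact h2.symm
    rw [h1, map_sum]
    refine Submodule.sum_mem _ fun l _ => ?_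
    rw [LinearMap.map_smulₛₗ]
    exact Submodule.smul_mem _ _ (Submodule.subset_span ⟨Sum.inr l, rfl⟩)
  -- a lift is in the span
  have hliftz : ∀ v ∈ inv M.ρV Δ₀, ∀ u ∈ inv M.ρU Δ₀, M.S.mkQ u = M.r v →
      u ∈ Submodule.span R (Set.range z) := by
    intro v hv u hu huv
    have h1 : v = ∑ l, a₀.repr ⟨v, hv⟩ l • (a₀ l : M.V) := by
      have h2 := congrArg Subtype.val (a₀.sum_repr ⟨v, hv⟩)
      rw [Submodule.coe_sum] at h2
      exact h2.symm
    set u' := ∑ l, algebraMap k R (a₀.repr ⟨v, hv⟩ l) • y l with hu'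
    have hu'm : u' ∈ inv M.ρU Δ₀ :=
      Submodule.sum_mem _ fun l _ => Submodule.smul_mem _ _ (hy l)
    have hu'q : M.S.mkQ u' = M.r v := by
      conv_rhs => rw [h1]
      rw [hu', map_sum, map_sum]
      refine Finset.sum_congr rfl fun l _ => ?_
      rw [map_smul, hy' l, LinearMap.map_smulₛₗ]
    have h3 : u - u' ∈ M.S := by
      have h4 : M.S.mkQ (u - u') = 0 := by rw [map_sub, huv, hu'q, sub_self]
      rwa [Submodule.mkQ_apply, Submodule.Quotient.mk_eq_zero] at h4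
    have h4 := g0.deR _ (Submodule.sub_mem _ hu hu'm) h3
    have h5 : u - u' ∈ Submodule.span R (Set.range z) := by
      refine (Submodule.span_le.2 ?_) h4
      rintro _ ⟨w, hw, rfl⟩
      exact hφz w hw
    have h6 : u' ∈ Submodule.span R (Set.range z) :=
      Submodule.sum_mem _ fun l _ => Submodule.smul_mem _ _ (Submodule.subset_span ⟨Sum.inl l, rfl⟩)
    have h7 : u = (u - u') + u' := by abel
    rw [h7]
    exact Submodule.add_mem _ h5 h6
  -- everything is in the span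
  have hspan : ∀ u ∈ inv M.ρU Δ₀, u ∈ Submodule.span R (Set.range z) := by
    intro u hu
    refine Submodule.iSup_induction (fun j => inv M.ρU (Δ j))
      (motive := fun u => u ∈ Submodule.span R (Set.range z)) (hU hu) ?_ (Submodule.zero_mem _)
      fun v w => Submodule.add_mem _
    intro j u hu
    have hz : ∀ m, Sum.elim (x j) (fun l => M.φ (f j l)) m ∈ Submodule.span R (Set.range z) := by
      rintro (m | m)
      · exact hliftz (a j m) (inv_mono M.ρV (hle j) (a j m).2) (x j m)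
          (inv_mono M.ρU (hle j) (hx j m).1) (hx j m).2
      · exact hφz _ (inv_mono M.ρΦ (hle j) (f j m).2)
    have hdet : IsUnit (C j).det := by
      rw [hd j]
      exact isUnit_iff_ne_zero.2 (h0 j)
    have hb : ∀ l, M.η (b j l) ∈ Submodule.span R (Set.range z) := by
      intro l
      have h1 : M.η (b j l) = ∑ m, ((C j)⁻¹ m l) • Sum.elim (x j) (fun l => M.φ (f j l)) m := by
        simp only [hC j, Finset.smul_sum]
        rw [Finset.sum_comm]
        have h2 : ∀ l', ∑ m, (C j)⁻¹ m l • C j l' m • M.η (b j l') =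
            ((C j * (C j)⁻¹) l' l) • M.η (b j l') := by
          intro l'
          rw [Matrix.mul_apply, Finset.sum_smul]
          refine Finset.sum_congr rfl fun m _ => ?_
          rw [smul_smul, mul_comm]
        rw [Finset.sum_congr rfl fun l' _ => h2 l', Matrix.mul_nonsing_inv _ hdet]
        simp [Matrix.one_apply]
      rw [h1]
      exact Submodule.sum_mem _ fun m _ => Submodule.smul_mem _ _ (hz m)
    refine (Submodule.span_le.2 ?_) ((hg j).span u hu)
    rintro _ ⟨w, hw, rfl⟩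
    have h1 : w = ∑ l, (b j).repr ⟨w, hw⟩ l • (b j l : M.B) := by
      have h2 := congrArg Subtype.val ((b j).sum_repr ⟨w, hw⟩)
      rw [Submodule.coe_sum] at h2
      exact h2.symm
    rw [h1, map_sum]
    refine Submodule.sum_mem _ fun l _ => ?_
    rw [LinearMap.map_smulₛₗ]
    exact Submodule.smul_mem _ _ (hb l)
  -- the matrix
  have hzm : ∀ m, z m ∈ inv M.ρU Δ₀ := by
    rintro (m | m)
    · exact hy m
    · intro g hg
      change M.ρU g (M.φ (f₀ m)) = M.φ (f₀ m)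
      rw [← M.hφ, (f₀ m).2 g hg]
  have hzb : ∀ m, ∃ c : Fin P ⊕ Fin Q → R, ∑ l, c l • M.η (b₀ l) = z m := by
    intro m
    have h1 := g0.span _ (hzm m)
    have h2 : z m ∈ Submodule.span R (Set.range fun l => M.η (b₀ l : M.B)) := by
      refine (Submodule.span_le.2 ?_) h1
      rintro _ ⟨w, hw, rfl⟩
      have h1 : w = ∑ l, b₀.repr ⟨w, hw⟩ l • (b₀ l : M.B) := by
        have h2 := congrArg Subtype.val (b₀.sum_repr ⟨w, hw⟩)
        rw [Submodule.coe_sum] at h2
        exact h2.symm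
      rw [h1, map_sum]
      refine Submodule.sum_mem _ fun l _ => ?_
      rw [LinearMap.map_smulₛₗ]
      exact Submodule.smul_mem _ _ (Submodule.subset_span ⟨l, rfl⟩)
    exact (Submodule.mem_span_range_iff_exists_fun R).1 h2
  choose D hD using hzb
  have hLI : LinearIndependent R fun l => M.η (b₀ l : M.B) := hB _ (fun l => (b₀ l : M.B))
    (b₀.linearIndependent.map' (inv M.ρB Δ₀).subtype (Submodule.ker_subtype _))
  have hbm : ∀ l, M.η (b₀ l : M.B) ∈ inv M.ρU Δ₀ := by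
    intro l g hg
    rw [← M.hη, (b₀ l).2 g hg]
  have hbz : ∀ l, ∃ c : Fin P ⊕ Fin Q → R, ∑ m, c m • z m = M.η (b₀ l : M.B) := fun l =>
    (Submodule.mem_span_range_iff_exists_fun R).1 (hspan _ (hbm l))
  choose E hE using hbz
  let CC : Matrix (Fin P ⊕ Fin Q) (Fin P ⊕ Fin Q) R := Matrix.of fun l m => D m l
  let EE : Matrix (Fin P ⊕ Fin Q) (Fin P ⊕ Fin Q) R := Matrix.of fun m l => E l m
  have hCE : CC * EE = 1 := by
    ext l' l
    have h1 : ∑ l', ((CC * EE) l' l) • M.η (b₀ l' : M.B) =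
        ∑ l', ((1 : Matrix (Fin P ⊕ Fin Q) (Fin P ⊕ Fin Q) R) l' l) • M.η (b₀ l' : M.B) := by
      have h2 : ∑ l', ((1 : Matrix (Fin P ⊕ Fin Q) (Fin P ⊕ Fin Q) R) l' l) • M.η (b₀ l' : M.B) =
          M.η (b₀ l : M.B) := by
        simp [Matrix.one_apply]
      rw [h2, ← hE l]
      have h3 : ∀ l', ((CC * EE) l' l) • M.η (b₀ l' : M.B) =
          ∑ m, (E l m * D m l') • M.η (b₀ l' : M.B) := by
        intro l'
        rw [Matrix.mul_apply, Finset.sum_smul]
        refine Finset.sum_congr rfl fun m _ => ?_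
        change (D m l' * E l m) • _ = _
        rw [mul_comm]
      rw [Finset.sum_congr rfl fun l' _ => h3 l', Finset.sum_comm]
      refine Finset.sum_congr rfl fun m _ => ?_
      rw [← hD m, Finset.smul_sum]
      refine Finset.sum_congr rfl fun l' _ => ?_
      rw [smul_smul]
    have h4 := Fintype.linearIndependent_iff.1 hLI
      (fun l' => (CC * EE) l' l - (1 : Matrix (Fin P ⊕ Fin Q) (Fin P ⊕ Fin Q) R) l' l) (by
        simp only [sub_smul, Finset.sum_sub_distrib]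
        rw [h1, sub_self]) l'
    exact sub_eq_zero.1 h4
  have hdet : CC.det ≠ 0 := by
    intro h
    have h1 := congrArg Matrix.det hCE
    rw [Matrix.det_mul, h, zero_mul, Matrix.det_one] at h1
    exact zero_ne_one h1
  exact ⟨CC.det, hdet, P, Q, a₀, f₀, b₀, y, CC, fun l => ⟨hy l, hy' l⟩, fun m => (hD m).symm, rfl⟩

end

section
variable {k Γ V : Type} [Field k] [CharZero k] [Group Γ] [AddCommGroup V] [Module k V]
  (ρ : Representation k Γ V)

/-- the dimensions in a relation over a normal subgroup -/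
theorem dim_relN {N : Subgroup Γ} [N.Normal] [N.FiniteIndex] [FiniteDimensional k (inv ρ N)]
    {ι : Type} [Fintype ι] {Δ : ι → Subgroup Γ} (hle : ∀ j, N ≤ Δ j) {n : ι → ℤ}
    (h : ∀ g, ∑ j, n j * (fxc (Δ j) g : ℤ) = 0) :
    ∑ j, n j * (finrank k (inv ρ (Δ j)) : ℤ) = 0 := by
  have hfin : Finite (Γ ⧸ N) := inferInstance
  have := Fintype.ofFinite (Γ ⧸ N)
  have h1 := dim_rel (repQ ρ N) (fun j => (Δ j).map (QuotientGroup.mk' N)) n (by
    intro g
    obtain ⟨g, rfl⟩ := QuotientGroup.mk_surjective g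
    rw [← h g]
    exact Finset.sum_congr rfl fun j _ => by rw [fq_map (hle j) g])
  rw [← h1]
  exact Finset.sum_congr rfl fun j _ => by rw [(invEquiv ρ (hle j)).finrank_eq]

end

end Pool.Agent.Q5.RG
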