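import Pool.Agent.Q5.RG.Fam2

/-! The spaces attached to a variety, and their regulators, in a short form. -/

set_option autoImplicit false
set_option linter.unusedSectionVars false

namespace Pool.Agent.Q5.RG

open Module NumberField IsDedekindDomain Polynomial Pool.Agent.W353.NF Pool.Agent.W401.Cheb
  Pool.Agent.Q5.BR Pool.Agent.Q5.VL
open Pool.Agent.W353.EF (LFun)
open scoped Classical

/-- a vector space over `k` with a linear action of `Γ` -/
structure GVec (k Γ : Type) [Field k] [Group Γ] where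
  car : Type
  [add : AddCommGroup car]
  [mod : Module k car]
  act : Representation k Γ car

attribute [instance] GVec.add GVec.mod

/-- the action of `g` on `x` -/
def GVec.mul {k Γ : Type} [Field k] [Group Γ] (A : GVec k Γ) (g : Γ) (x : A.car) : A.car :=
  A.act g x

/-- a `k`-linear equivariant map from a vector space over `k` to one over an extension `R` of `k` -/
structure GHom {k R Γ : Type} [Field k] [Field R] [Algebra k R] [Group Γ] (A : GVec k Γ)
    (B : GVec R Γ) where
  map : A.car →ₛₗ[algebraMap k R] B.car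
  comm : ∀ g x, map (A.mul g x) = B.mul g (map x)

/-- the value of the map at `x` -/
def GHom.app {k R Γ : Type} [Field k] [Field R] [Algebra k R] [Group Γ] {A : GVec k Γ}
    {B : GVec R Γ} (h : GHom A B) (x : A.car) : B.car := h.map x

/-- The spaces attached to a variety (limits over all finite extensions of a field with absolute
Galois group `Γ`; the elements fixed by the stabilizer of an extension `F` belong to `F`):
`V` motivic cohomology, `B` rational Betti cohomology, `Φ` the step of the Hodge filtration of de Rham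
cohomology, `U` real Betti cohomology, `D` Deligne cohomology, `η : B → U` and `φ : Φ → U` the
comparison maps, `π : U → D` the projection and `r : V → D` the regulator. -/
structure Spaces (k R Γ : Type) [Field k] [Field R] [Algebra k R] [Group Γ] where
  V : GVec k Γ
  B : GVec k Γ
  Φ : GVec k Γ
  U : GVec R Γ
  D : GVec R Γ
  η : GHom B U
  φ : GHom Φ U
  π : GHom U D
  r : GHom V D

section
variable {k R Γ : Type} [Field k] [Field R] [Algebra k R] [Group Γ]

/-- `x` is fixed by `Δ` -/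
def GVec.Fix (A : GVec k Γ) (Δ : Subgroup Γ) (x : A.car) : Prop := ∀ g ∈ Δ, A.mul g x = x

/-- `a` is a basis of the subspace of the elements fixed by `Δ` -/
def GVec.IsBasis (A : GVec k Γ) (Δ : Subgroup Γ) {κ : Type} (a : κ → A.car) : Prop :=
  LinearIndependent k a ∧ ∀ x, x ∈ Submodule.span k (Set.range a) ↔ A.Fix Δ x

/-- the columns of `C` are the coordinates of the `y m` in terms of the `η (b l)` -/
def GHom.IsMatrix {B : GVec k Γ} {U : GVec R Γ} (η : GHom B U) {κ : Type} [Fintype κ]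
    (b : κ → B.car) (y : κ → U.car) (C : Matrix κ κ R) : Prop :=
  ∀ m, y m = ∑ l, C l m • η.app (b l)

variable (M : Spaces k R Γ)

/-- `p` is the dimension of motivic cohomology over the field of `Δ`, and `c` is the (nonzero)
determinant of the regulator, in rational bases: `a` of motivic cohomology, with lifts `x` of the
`r (a l)` to `U`, `f` of the de Rham part, and `b` of Betti cohomology -/
def Spaces.IsReg (Δ : Subgroup Γ) (p : ℕ) (c : R) : Prop :=
  c ≠ 0 ∧ ∃ (q : ℕ) (a : Fin p → M.V.car) (f : Fin q → M.Φ.car) (b : Fin p ⊕ Fin q → M.B.car)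
    (x : Fin p → M.U.car) (C : Matrix (Fin p ⊕ Fin q) (Fin p ⊕ Fin q) R),
    M.V.IsBasis Δ a ∧ M.Φ.IsBasis Δ f ∧ M.B.IsBasis Δ b ∧
    (∀ l, M.U.Fix Δ (x l) ∧ M.π.app (x l) = M.r.app (a l)) ∧
    M.η.IsMatrix b (Sum.elim x fun l => M.φ.app (f l)) C ∧ C.det = c

/-- The comparison over the field of `Δ`: `B` is finite-dimensional and spans `U`, and the kernel of
`U → D` is spanned by `Φ`. -/
structure Spaces.GoodAt (Δ : Subgroup Γ) : Prop where
  fin : ∃ (p : ℕ) (b : Fin p → M.B.car), M.B.IsBasis Δ b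
  span : ∀ u, M.U.Fix Δ u → u ∈ Submodule.span R (M.η.app '' {b | M.B.Fix Δ b})
  deR : ∀ u, M.U.Fix Δ u → M.π.app u = 0 → u ∈ Submodule.span R (M.φ.app '' {f | M.Φ.Fix Δ f})

/-- rationally independent elements of `B` are independent in `U`, and `π` is onto -/
structure Spaces.Comp : Prop where
  onto : Function.Surjective M.π.app
  indep : ∀ (κ : Type) [Fintype κ] (w : κ → M.B.car), LinearIndependent k w →
    LinearIndependent R fun l => M.η.app (w l)

variable {M}

/-- the kernel of `π` -/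
def Spaces.S (M : Spaces k R Γ) : Submodule R M.U.car where
  carrier := {u | M.π.map u = 0}
  zero_mem' := map_zero M.π.map
  add_mem' := fun {u v} hu hv => by
    change M.π.map (u + v) = 0
    rw [map_add]
    change M.π.map u = 0 at hu
    change M.π.map v = 0 at hv
    rw [hu, hv, add_zero]
  smul_mem' := fun c u hu => by
    change M.π.map (c • u) = 0
    rw [LinearMap.map_smulₛₗ]
    change M.π.map u = 0 at hu
    rw [hu, smul_zero]

theorem Spaces.mem_S {u : M.U.car} : u ∈ M.S ↔ M.π.map u = 0 := Iff.rfl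

theorem Spaces.mkQ_eq {u v : M.U.car} : M.S.mkQ u = M.S.mkQ v ↔ M.π.map u = M.π.map v := by
  rw [Submodule.mkQ_apply, Submodule.mkQ_apply, Submodule.Quotient.eq, Spaces.mem_S, map_sub,
    sub_eq_zero]

/-- a lift -/
noncomputable def Spaces.lft (h : Function.Surjective M.π.map) (v : M.V.car) : M.U.car :=
  (h (M.r.map v)).choose

theorem Spaces.lft_spec (h : Function.Surjective M.π.map) (v : M.V.car) :
    M.π.map (Spaces.lft h v) = M.r.map v := (h (M.r.map v)).choose_spec

/-- the datum of the spaces -/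
noncomputable def Spaces.datum (M : Spaces k R Γ) (h : Function.Surjective M.π.map) :
    Datum k R Γ where
  V := M.V.car
  B := M.B.car
  Φ := M.Φ.car
  U := M.U.car
  ρV := M.V.act
  ρB := M.B.act
  ρΦ := M.Φ.act
  ρU := M.U.act
  η := M.η.map
  φ := M.φ.map
  S := M.S
  r :=
    { toFun := fun v => M.S.mkQ (Spaces.lft h v)
      map_add' := fun v w => by
        rw [← map_add, Spaces.mkQ_eq, map_add, Spaces.lft_spec, Spaces.lft_spec, Spaces.lft_spec,
          map_add]
      map_smul' := fun c v => by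
        rw [← map_smul, Spaces.mkQ_eq, LinearMap.map_smulₛₗ, Spaces.lft_spec, Spaces.lft_spec,
          LinearMap.map_smulₛₗ]
        rfl }
  hη := M.η.comm
  hφ := M.φ.comm
  hr := fun g v u hu => by
    change M.S.mkQ u = M.S.mkQ (Spaces.lft h v) at hu
    change M.S.mkQ (M.U.act g u) = M.S.mkQ (Spaces.lft h (M.V.act g v))
    rw [Spaces.mkQ_eq, Spaces.lft_spec] at hu
    rw [Spaces.mkQ_eq, Spaces.lft_spec]
    change M.π.map (M.U.mul g u) = M.r.map (M.V.mul g v)
    rw [M.π.comm, hu, M.r.comm]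

theorem Spaces.r_iff (h : Function.Surjective M.π.map) (u : M.U.car) (v : M.V.car) :
    (M.datum h).S.mkQ u = (M.datum h).r v ↔ M.π.map u = M.r.map v := by
  change M.S.mkQ u = M.S.mkQ (Spaces.lft h v) ↔ _
  rw [Spaces.mkQ_eq, Spaces.lft_spec]

/-- bases of the invariants -/
theorem GVec.isBasis_basis {A : GVec k Γ} {Δ : Subgroup Γ} {κ : Type}
    (a : Basis κ k (inv A.act Δ)) : A.IsBasis Δ fun l => (a l : A.car) := by
  refine ⟨a.linearIndependent.map' (inv A.act Δ).subtype (Submodule.ker_subtype _), fun x => ?_⟩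
  have h1 : Submodule.span k (Set.range fun l => (a l : A.car)) = inv A.act Δ := by
    have h2 : (Set.range fun l => (a l : A.car)) = (inv A.act Δ).subtype '' Set.range a := by
      rw [← Set.range_comp]
      rfl
    rw [h2, Submodule.span_image, a.span_eq, Submodule.map_top, Submodule.range_subtype]
  rw [h1]
  rfl

theorem GVec.exists_basis {A : GVec k Γ} {Δ : Subgroup Γ} {κ : Type} {a : κ → A.car}
    (h : A.IsBasis Δ a) : ∃ b : Basis κ k (inv A.act Δ), ∀ l, (b l : A.car) = a l := by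
  have hmem : ∀ l, a l ∈ inv A.act Δ := fun l => (h.2 (a l)).1 (Submodule.subset_span ⟨l, rfl⟩)
  let a' : κ → inv A.act Δ := fun l => ⟨a l, hmem l⟩
  have hli : LinearIndependent k a' :=
    LinearIndependent.of_comp (inv A.act Δ).subtype h.1
  have hsp : ⊤ ≤ Submodule.span k (Set.range a') := by
    rintro ⟨x, hx⟩ -
    have h1 : x ∈ Submodule.span k (Set.range a) := (h.2 x).2 hx
    have h2 : (Set.range a) = (inv A.act Δ).subtype '' Set.range a' := by
      rw [← Set.range_comp]
      rfl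
    rw [h2, Submodule.span_image] at h1
    obtain ⟨y, hy, hyx⟩ := h1
    have : y = ⟨x, hx⟩ := Subtype.ext hyx
    rwa [← this]
  exact ⟨Basis.mk hli hsp, fun l => by rw [Basis.mk_apply]⟩

theorem Spaces.isReg_iff (h : Function.Surjective M.π.map) {Δ : Subgroup Γ} {c : R} :
    (∃ p, M.IsReg Δ p c) ↔ RG.IsReg (M.datum h) Δ c := by
  constructor
  · rintro ⟨p, h0, q, a, f, b, x, C, ha, hf, hb, hx, hC, hd⟩
    obtain ⟨a', ha'⟩ := GVec.exists_basis ha
    obtain ⟨f', hf'⟩ := GVec.exists_basis hf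
    obtain ⟨b', hb'⟩ := GVec.exists_basis hb
    refine ⟨h0, p, q, a', f', b', x, C, fun l => ⟨(hx l).1, ?_⟩, fun m => ?_, hd⟩
    · have h1 := (Spaces.r_iff h (x l) (a l)).2 (hx l).2
      rw [h1, ← ha' l]
      rfl
    · have h1 := hC m
      refine Eq.trans ?_ (h1.trans ?_)
      · rcases m with m | m
        · rfl
        · exact congrArg M.φ.map (hf' m)
      · exact Finset.sum_congr rfl fun l _ => by rw [← hb' l]; rfl
  · rintro ⟨h0, p, q, a, f, b, x, C, hx, hC, hd⟩
    refine ⟨p, h0, q, fun l => (a l).1, fun l => (f l).1, fun l => (b l).1, x, C,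
      GVec.isBasis_basis a, GVec.isBasis_basis f, GVec.isBasis_basis b,
      fun l => ⟨(hx l).1, ?_⟩, hC, hd⟩
    exact (Spaces.r_iff h (x l) (a l).1).1 (hx l).2

theorem Spaces.goodAt (h : Function.Surjective M.π.map) {Δ : Subgroup Γ} (hΔ : M.GoodAt Δ) :
    RG.GoodAt (M.datum h) Δ where
  fin := by
    obtain ⟨p, b, hb⟩ := hΔ.fin
    obtain ⟨b', -⟩ := GVec.exists_basis hb
    exact Module.Finite.of_basis b'
  span := fun u hu => hΔ.span u hu
  deR := fun u hu hS => hΔ.deR u hu hS

end

theorem Spaces.isReg_dim {k R Γ : Type} [Field k] [Field R] [Algebra k R] [Group Γ]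
    {M : Spaces k R Γ} {Δ : Subgroup Γ} {p : ℕ} {c : R} (h : M.IsReg Δ p c) :
    finrank k (inv M.V.act Δ) = p := by
  obtain ⟨-, q, a, f, b, x, C, ha, -⟩ := h
  obtain ⟨a', -⟩ := GVec.exists_basis ha
  rw [finrank_eq_card_basis a', Fintype.card_fin]

section
variable {K : Type} [Field K] [NumberField K] (M : Spaces ℚ ℝ (GK K))

/-- `p` and `c` are the dimension of motivic cohomology and the determinant of the regulator over the
extension `F` of `K` -/
def Spaces.Reg (F : Type) [Field F] [Algebra K F] (p : ℕ) (c : ℝ) : Prop :=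
  ∃ i : F →ₐ[K] AlgebraicClosure K, M.IsReg (stabE i) p c

/-- the comparison over all finite extensions of `K` -/
structure Spaces.Good : Prop where
  comp : M.Comp
  good : ∀ (F : Type) [Field F] [NumberField F] [Algebra K F] (i : F →ₐ[K] AlgebraicClosure K),
    M.GoodAt (stabE i)

/-- the `t`-th power of the L-function with the Euler polynomials `B` has a meromorphic continuation
to `Ω`, the order of which at `m` is `t` times the dimension of motivic cohomology, and the leading
coefficient a rational multiple of the `t`-th power of the determinant of the regulator -/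
def Spaces.Pow (m : ℤ) (Ω : Set ℂ) (F : Type) [Field F] [NumberField F] [Algebra K F]
    (B : HeightOneSpectrum (𝓞 F) → ℚ[X]) (t : ℕ) : Prop :=
  ∃ f : ℂ → ℂ, MeromorphicOn f Ω ∧ (∃ b : ℝ, ∀ s : ℂ, b < s.re → f s = (LFun (mp B) s) ^ t) ∧
    ∀ p c, M.Reg F p c → meromorphicOrderAt f m = ((t * p : ℕ) : WithTop ℤ) ∧
      ∃ q : ℚ, q ≠ 0 ∧ meromorphicTrailingCoeffAt f m = q * (c : ℂ) ^ t

variable {M}

theorem Spaces.reg_iff (h : Function.Surjective M.π.map) {F : Type} [Field F] [Algebra K F] {c : ℝ} :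
    (∃ p, M.Reg F p c) ↔ RG.Reg (M.datum h) F c := by
  constructor
  · rintro ⟨p, i, hi⟩
    exact ⟨i, (Spaces.isReg_iff h).1 ⟨p, hi⟩⟩
  · rintro ⟨i, hi⟩
    obtain ⟨p, hp⟩ := (Spaces.isReg_iff h).2 hi
    exact ⟨p, i, hp⟩

theorem Spaces.reg_dim (h : Function.Surjective M.π.map) {F : Type} [Field F] [NumberField F]
    [Algebra K F] {p : ℕ} {c : ℝ} (hc : M.Reg F p c) : rkV (M.datum h) F = p := by
  obtain ⟨i, hi⟩ := hc
  unfold rkV
  rw [rk_eq _ i, fixV_eq]
  exact Spaces.isReg_dim hi

theorem Spaces.goodM (h : M.Good) : GoodM (M.datum h.comp.onto) where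
  indep := h.comp.indep
  good := fun F _ _ _ i => Spaces.goodAt h.comp.onto (h.good F i)

theorem Spaces.pow_iff (h : Function.Surjective M.π.map) {m : ℤ} {Ω : Set ℂ} {F : Type} [Field F]
    [NumberField F] [Algebra K F] {B : HeightOneSpectrum (𝓞 F) → ℚ[X]} {t : ℕ}
    (hF : ∃ p c, M.Reg F p c) :
    M.Pow m Ω F B t ↔ RG.PowL m (M.datum h) Ω F B (t : ℤ) := by
  obtain ⟨p₀, c₀, h₀⟩ := hF
  constructor
  · rintro ⟨f, h1, ⟨b, h2⟩, h3⟩
    refine ⟨f, h1, ⟨b, fun s hs => by rw [h2 s hs, zpow_natCast]⟩, ?_, fun c hc => ?_⟩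
    · rw [(h3 p₀ c₀ h₀).1, Spaces.reg_dim h h₀]
      push_cast
      rfl
    · obtain ⟨p, hp⟩ := (Spaces.reg_iff h).2 hc
      obtain ⟨q, hq, h4⟩ := (h3 p c hp).2
      exact ⟨q, hq, by rw [h4, zpow_natCast]⟩
  · rintro ⟨f, h1, ⟨b, h2⟩, h3, h4⟩
    refine ⟨f, h1, ⟨b, fun s hs => by rw [h2 s hs, zpow_natCast]⟩, fun p c hc => ⟨?_, ?_⟩⟩
    · rw [h3, Spaces.reg_dim h hc]
      push_cast
      rfl
    · obtain ⟨q, hq, h5⟩ := h4 c ((Spaces.reg_iff h).1 ⟨p, hc⟩)
      exact ⟨q, hq, by rw [h5, zpow_natCast]⟩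

theorem Spaces.ex_iff (h : Function.Surjective M.π.map) {F : Type} [Field F] [Algebra K F] :
    (∃ p c, M.Reg F p c) ↔ ∃ c, RG.Reg (M.datum h) F c := by
  constructor
  · rintro ⟨p, c, hc⟩
    exact ⟨c, (Spaces.reg_iff h).1 ⟨p, hc⟩⟩
  · rintro ⟨c, hc⟩
    obtain ⟨p, hp⟩ := (Spaces.reg_iff h).2 hc
    exact ⟨p, c, hp⟩

/-- the conjecture -/
theorem Spaces.conj_iff (h : Function.Surjective M.π.map) {n : ℕ}
    {X : Set (MvPolynomial (Fin n) (𝓞 K))} {d i N : ℕ} {m : ℤ} {Ω : Set ℂ} {F : Type} [Field F]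
    [NumberField F] [Algebra K F] : RG.ConjQ X d i N m (M.datum h) Ω F ↔ ((∃ p c, M.Reg F p c) ∧
      ∀ B : HeightOneSpectrum (𝓞 F) → ℚ[X], Sys X d i N m F B → M.Pow m Ω F B 1) := by
  constructor
  · rintro ⟨h1, h2⟩
    have h3 := (Spaces.ex_iff h).2 h1
    exact ⟨h3, fun B hB => (Spaces.pow_iff h h3).2 (h2 B hB)⟩
  · rintro ⟨h1, h2⟩
    exact ⟨(Spaces.ex_iff h).1 h1, fun B hB => (Spaces.pow_iff h h1).1 (h2 B hB)⟩

end

end Pool.Agent.Q5.RG
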