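import Pool.Agent.Q5.RG.Datum

/-! **The regulators of a datum in a relation.** -/

set_option autoImplicit false
set_option linter.unusedSectionVars false

namespace Pool.Agent.Q5.RG

open Module
open Pool.Agent.Q5.SO (fq)
open scoped Classical

section
variable {k G A B : Type} [Field k] [Group G] [AddCommGroup A] [Module k A] [AddCommGroup B]
  [Module k B]

/-- the direct sum of two representations -/
def prodRep (σ : Representation k G A) (τ : Representation k G B) : Representation k G (A × B) where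
  toFun g := (σ g).prodMap (τ g)
  map_one' := by rw [map_one, map_one]; rfl
  map_mul' g h := by rw [map_mul, map_mul]; rfl

end

section
variable {k Γ A B : Type} [Field k] [Group Γ] [AddCommGroup A] [Module k A] [AddCommGroup B]
  [Module k B] (σ : Representation k Γ A) (τ : Representation k Γ B) {N Δ : Subgroup Γ} [N.Normal]
  (hle : N ≤ Δ)

/-- the invariants of a direct sum -/
noncomputable def prodInv : (inv σ Δ × inv τ Δ) ≃ₗ[k]
    inv (prodRep (repQ σ N) (repQ τ N)) (Δ.map (QuotientGroup.mk' N)) where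
  toFun u := ⟨(⟨u.1.1, inv_mono σ hle u.1.2⟩, ⟨u.2.1, inv_mono τ hle u.2.2⟩), by
    rintro _ ⟨g, hg, rfl⟩
    exact Prod.ext (Subtype.ext (u.1.2 g hg)) (Subtype.ext (u.2.2 g hg))⟩
  invFun u := (⟨u.1.1.1, fun g hg => congrArg (fun w => (w.1 : A))
      (u.2 (QuotientGroup.mk' N g) ⟨g, hg, rfl⟩)⟩,
    ⟨u.1.2.1, fun g hg => congrArg (fun w => (w.2 : B))
      (u.2 (QuotientGroup.mk' N g) ⟨g, hg, rfl⟩)⟩)
  map_add' := fun u v => rfl
  map_smul' := fun c u => rfl
  left_inv := fun u => rfl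
  right_inv := fun u => rfl

end

section
variable {k R Γ A U : Type} [Field k] [Field R] [Algebra k R] [Group Γ] [AddCommGroup A] [Module k A]
  [AddCommGroup U] [Module R U] {ρA : Representation k Γ A} {ρU : Representation R Γ U}
  (ψ : A →ₛₗ[algebraMap k R] U) (h : ∀ g x, ψ (ρA g x) = ρU g (ψ x)) (N : Subgroup Γ)

/-- the restriction to the invariants -/
def resI : inv ρA N →ₛₗ[algebraMap k R] inv ρU N where
  toFun u := ⟨ψ u.1, fun g hg => by rw [← h, u.2 g hg]⟩
  map_add' := fun u v => Subtype.ext (map_add ψ u.1 v.1)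
  map_smul' := fun c u => Subtype.ext (ψ.map_smulₛₗ c u.1)

theorem resI_equiv [N.Normal] (g : Γ ⧸ N) (u : inv ρA N) :
    resI ψ h N (repQ ρA N g u) = repQ ρU N g (resI ψ h N u) := by
  obtain ⟨γ, rfl⟩ := QuotientGroup.mk_surjective g
  exact Subtype.ext (h γ u.1)

end

section
variable {k R Γ : Type} [Field k] [CharZero k] [Field R] [Algebra k R] [Group Γ] {M : Datum k R Γ}
  {N : Subgroup Γ} [N.Normal] [N.FiniteIndex]

/-- the comparison of the lifts -/
theorem compare {θ : inv M.ρV N →ₛₗ[algebraMap k R] inv M.ρU N}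
    (hθ : ∀ g v, θ (repQ M.ρV N g v) = repQ M.ρU N g (θ v))
    (hθr : ∀ v, M.S.mkQ (θ v : M.U) = M.r (v : M.V)) {Δ : Subgroup Γ} (hle : N ≤ Δ)
    (hdeR : ∀ u ∈ inv M.ρU Δ, u ∈ M.S → u ∈ Submodule.span R (M.φ '' (inv M.ρΦ Δ : Set M.Φ)))
    {p q : ℕ} {a : Basis (Fin p) k (inv M.ρV Δ)} {f : Basis (Fin q) k (inv M.ρΦ Δ)}
    {b : Basis (Fin p ⊕ Fin q) k (inv M.ρB Δ)} {x : Fin p → M.U}
    {C : Matrix (Fin p ⊕ Fin q) (Fin p ⊕ Fin q) R}
    (hx : ∀ l, x l ∈ inv M.ρU Δ ∧ M.S.mkQ (x l) = M.r (a l))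
    (hC : ∀ m, Sum.elim x (fun l => M.φ (f l)) m = ∑ l, C l m • M.η (b l)) :
    ∃ C' : Matrix (Fin p ⊕ Fin q) (Fin p ⊕ Fin q) R, C'.det = C.det ∧
      ∀ m, Sum.elim (fun l => (θ ⟨(a l : M.V), inv_mono M.ρV hle (a l).2⟩ : M.U))
        (fun l => M.φ (f l)) m = ∑ l, C' l m • M.η (b l) := by
  refine change_lift (b := fun l => M.η (b l)) hC (fun l => ?_)
  set y : inv M.ρU N := θ ⟨(a l : M.V), inv_mono M.ρV hle (a l).2⟩ with hy
  have h1 : (y : M.U) ∈ inv M.ρU Δ := by
    intro g hg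
    have h2 : repQ M.ρV N (g : Γ ⧸ N) ⟨(a l : M.V), inv_mono M.ρV hle (a l).2⟩ =
        ⟨(a l : M.V), inv_mono M.ρV hle (a l).2⟩ := Subtype.ext ((a l).2 g hg)
    have h3 := hθ (g : Γ ⧸ N) ⟨(a l : M.V), inv_mono M.ρV hle (a l).2⟩
    rw [h2] at h3
    exact (congrArg Subtype.val h3).symm
  have h2 : (y : M.U) - x l ∈ M.S := by
    have h3 : M.S.mkQ ((y : M.U) - x l) = 0 := by
      rw [map_sub, hθr, (hx l).2, sub_self]
    exact (Submodule.Quotient.mk_eq_zero _).1 h3
  have h3 := hdeR _ (sub_mem h1 (hx l).1) h2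
  refine Submodule.span_le.2 ?_ h3
  rintro _ ⟨w, hw, rfl⟩
  have h4 : w = ∑ m, f.repr ⟨w, hw⟩ m • (f m : M.Φ) := by
    have h5 := congrArg Subtype.val (f.sum_repr ⟨w, hw⟩)
    rw [Submodule.coe_sum] at h5
    exact h5.symm
  rw [h4, map_sum]
  refine Submodule.sum_mem _ fun m _ => ?_
  rw [LinearMap.map_smulₛₗ]
  exact Submodule.smul_mem _ _ (Submodule.subset_span ⟨m, rfl⟩)

/-- the determinant does not depend on the decidability of the equality -/
theorem det_inst {n T : Type} [Fintype n] [CommRing T] (i₁ i₂ : DecidableEq n) (L : Matrix n n T) :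
    @Matrix.det n i₁ _ T _ L = @Matrix.det n i₂ _ T _ L := by
  rw [Subsingleton.elim i₁ i₂]

/-- **The regulators in a relation.** -/
theorem datum_rel (hB : IndepB M) {c₀ : R} (hN : IsReg M N c₀)
    (hdN : ∀ u ∈ inv M.ρU N, u ∈ M.S → u ∈ Submodule.span R (M.φ '' (inv M.ρΦ N : Set M.Φ)))
    {ι : Type} [Fintype ι] {Δ : ι → Subgroup Γ} (hle : ∀ j, N ≤ Δ j)
    (hdeR : ∀ j, ∀ u ∈ inv M.ρU (Δ j), u ∈ M.S →
      u ∈ Submodule.span R (M.φ '' (inv M.ρΦ (Δ j) : Set M.Φ)))
    {n : ι → ℤ} (h : ∀ g, ∑ j, n j * (fxc (Δ j) g : ℤ) = 0) {c : ι → R}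
    (hc : ∀ j, IsReg M (Δ j) (c j)) :
    ∃ q : k, q ≠ 0 ∧ ∏ j, (c j) ^ (n j) = algebraMap k R q := by
  obtain ⟨θ, hθ, hθr⟩ := exists_lift hN
  have hfin : Finite (Γ ⧸ N) := inferInstance
  have := Fintype.ofFinite (Γ ⧸ N)
  obtain ⟨hc0, p₀, q₀, a₀, f₀, b₀, x₀, C₀, hx₀, hC₀, hd₀⟩ := hN
  obtain ⟨D, hD, hDm⟩ := compare hθ hθr (le_refl N) hdN hx₀ hC₀
  choose hcj p q a f b x C hx hC hd using hc
  choose C' hC' hC'm using fun j => compare hθ hθr (hle j) (hdeR j) (hx j) (hC j)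
  -- the maps
  let θ' : (inv M.ρV N × inv M.ρΦ N) →ₛₗ[algebraMap k R] inv M.ρU N :=
    { toFun := fun u => θ u.1 + resI M.φ M.hφ N u.2
      map_add' := fun u v => by
        change θ (u.1 + v.1) + resI M.φ M.hφ N (u.2 + v.2) = _
        rw [map_add, map_add]
        abel
      map_smul' := fun t u => by
        change θ (t • u.1) + resI M.φ M.hφ N (t • u.2) = _
        rw [θ.map_smulₛₗ, LinearMap.map_smulₛₗ, smul_add] }
  have key := reg_rel (k := k) (R := R) (prodRep (repQ M.ρV N) (repQ M.ρΦ N)) (repQ M.ρB N)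
    (repQ M.ρU N) θ' (resI M.η M.hη N) (by
      intro g u
      change θ (repQ M.ρV N g u.1) + resI M.φ M.hφ N (repQ M.ρΦ N g u.2) =
        repQ M.ρU N g (θ u.1 + resI M.φ M.hφ N u.2)
      rw [hθ, resI_equiv, map_add]) (resI_equiv M.η M.hη N) (a₀.prod f₀) b₀ D
    (by
      have h9 : D.det ≠ 0 := by
        rw [hD, hd₀]
        exact hc0
      rw [det_inst _ instDecidableEqSum]
      exact h9) (by
      intro m
      apply Subtype.ext
      have h1 := hDm m
      rw [Submodule.coe_sum]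
      refine Eq.trans ?_ (h1.trans ?_)
      · rcases m with m | m
        · rw [Basis.prod_apply]
          change ((θ (a₀ m) + resI M.φ M.hφ N 0 : inv M.ρU N) : M.U) = _
          rw [map_zero, add_zero]
          rfl
        · rw [Basis.prod_apply]
          change ((θ 0 + resI M.φ M.hφ N (f₀ m) : inv M.ρU N) : M.U) = _
          rw [map_zero, zero_add]
          rfl
      · rfl) (by
      have h1 := hB (Fin p₀ ⊕ Fin q₀) (fun l => (b₀ l : M.B))
        (b₀.linearIndependent.map' (inv M.ρB N).subtype (Submodule.ker_subtype _))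
      exact LinearIndependent.of_comp (inv M.ρU N).subtype h1)
    (fun j => (Δ j).map (QuotientGroup.mk' N)) n (by
      intro g
      obtain ⟨γ, rfl⟩ := QuotientGroup.mk_surjective g
      rw [← h γ]
      exact Finset.sum_congr rfl fun j _ => by rw [fq_map (hle j)])
    (fun j => Fin (p j) ⊕ Fin (q j))
    (fun j => ((a j).prod (f j)).map (prodInv M.ρV M.ρΦ (hle j)))
    (fun j => liftB M.ρB (hle j) (b j)) C' (by
      intro j m
      apply Subtype.ext
      have h1 := hC'm j m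
      rw [Submodule.coe_sum]
      refine Eq.trans ?_ (h1.trans ?_)
      · rcases m with m | m
        · rw [Basis.map_apply, Basis.prod_apply]
          change ((θ ⟨(a j m : M.V), _⟩ + resI M.φ M.hφ N 0 : inv M.ρU N) : M.U) = _
          rw [map_zero, add_zero]
          rfl
        · rw [Basis.map_apply, Basis.prod_apply]
          change ((θ 0 + resI M.φ M.hφ N ⟨(f j m : M.Φ), _⟩ : inv M.ρU N) : M.U) = _
          rw [map_zero, zero_add]
          rfl
      · rfl)
  obtain ⟨t, ht, hprod⟩ := key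
  refine ⟨t, ht, ?_⟩
  rw [← hprod]
  refine Finset.prod_congr rfl fun j _ => ?_
  have h9 : (C' j).det = c j := by rw [hC', hd]
  rw [← h9]
  exact congrArg (fun t : R => t ^ n j) (det_inst _ _ _)

end

end Pool.Agent.Q5.RG
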