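import Pool.Agent.Q5.RG.Desc
import Pool.Agent.Q5.DP.Fam

/-! **Regulators over number fields.** -/

set_option autoImplicit false
set_option linter.unusedSectionVars false

namespace Pool.Agent.Q5.RG

open Module NumberField Pool.Agent.W353.NF Pool.Agent.W401.Cheb Pool.Agent.Q5.BR
open scoped Classical

section
variable {K : Type} [Field K] [NumberField K]

/-- the stabilizer of an embedding -/
def stabE {F : Type} [Field F] [Algebra K F] (i : F →ₐ[K] AlgebraicClosure K) : Subgroup (GK K) where
  carrier := {σ | ∀ x, σ (i x) = i x}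
  mul_mem' := fun {a b} ha hb x => by
    change a (b (i x)) = i x
    rw [hb x, ha x]
  one_mem' := fun x => rfl
  inv_mem' := fun {a} ha x => by
    change a.symm (i x) = i x
    rw [AlgEquiv.symm_apply_eq, ha x]

variable {F : Type} [Field F] [Algebra K F]

theorem mem_stabE {i : F →ₐ[K] AlgebraicClosure K} {σ : GK K} :
    σ ∈ stabE i ↔ ∀ x, σ (i x) = i x := Iff.rfl

/-- the cosets of a stabilizer -/
noncomputable def cosE (i : F →ₐ[K] AlgebraicClosure K) :
    GK K ⧸ stabE i → (F →ₐ[K] AlgebraicClosure K) :=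
  Quotient.lift (fun a : GK K => (a : AlgebraicClosure K →ₐ[K] AlgebraicClosure K).comp i) (by
    intro a b hab
    have h1 : a⁻¹ * b ∈ stabE i := QuotientGroup.leftRel_apply.1 hab
    apply AlgHom.ext
    intro x
    have h2 := h1 x
    change a.symm (b (i x)) = i x at h2
    rw [AlgEquiv.symm_apply_eq] at h2
    exact h2.symm)

theorem cosE_mk (i : F →ₐ[K] AlgebraicClosure K) (a : GK K) (x : F) :
    cosE i (a : GK K ⧸ stabE i) x = a (i x) := rfl

theorem cosE_bij (i : F →ₐ[K] AlgebraicClosure K) : Function.Bijective (cosE i) := by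
  constructor
  · intro x y h
    obtain ⟨a, rfl⟩ := QuotientGroup.mk_surjective x
    obtain ⟨b, rfl⟩ := QuotientGroup.mk_surjective y
    rw [QuotientGroup.eq]
    intro z
    change a.symm (b (i z)) = i z
    rw [AlgEquiv.symm_apply_eq]
    have h1 := DFunLike.congr_fun h z
    rw [cosE_mk, cosE_mk] at h1
    exact h1.symm
  · intro j
    obtain ⟨τ, hτ⟩ := VL.exists_conj i j
    exact ⟨(τ : GK K ⧸ stabE i), hτ⟩

theorem fxc_eq (i : F →ₐ[K] AlgebraicClosure K) (σ : GK K) : fxc (stabE i) σ = fixn K F σ := by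
  unfold fxc fixn
  refine Nat.card_congr (Equiv.subtypeEquiv (Equiv.ofBijective _ (cosE_bij i)) fun x => ?_)
  obtain ⟨a, rfl⟩ := QuotientGroup.mk_surjective x
  have h1 : act K F σ (cosE i (a : GK K ⧸ stabE i)) = cosE i (σ • (a : GK K ⧸ stabE i)) := by
    apply AlgHom.ext
    intro z
    rfl
  change _ ↔ act K F σ (cosE i (a : GK K ⧸ stabE i)) = cosE i (a : GK K ⧸ stabE i)
  rw [h1]
  exact (cosE_bij i).1.eq_iff.symm

theorem finiteIndex [FiniteDimensional K F] (i : F →ₐ[K] AlgebraicClosure K) :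
    (stabE i).FiniteIndex := by
  have h1 : Finite (F →ₐ[K] AlgebraicClosure K) := inferInstance
  have h2 : Finite (GK K ⧸ stabE i) := Finite.of_injective _ (cosE_bij i).1
  exact Subgroup.finiteIndex_of_finite_quotient

variable {N : IntermediateField K (AlgebraicClosure K)}

theorem stabE_le {i : F →ₐ[K] AlgebraicClosure K} (h : i.fieldRange ≤ N) :
    stabE N.val ≤ stabE i := fun _ hσ x => hσ ⟨i x, h ⟨x, rfl⟩⟩

theorem stabE_normal [hN : Normal K N] : (stabE N.val).Normal := by
  refine ⟨fun σ hσ g x => ?_⟩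
  have h1 : g.symm (x : AlgebraicClosure K) ∈ N := by
    have h2 := AlgHom.fieldRange_of_normal
      (((g⁻¹ : GK K) : AlgebraicClosure K →ₐ[K] AlgebraicClosure K).comp N.val)
    exact h2.le ⟨x, rfl⟩
  change g (σ (g.symm x)) = x
  have h2 : σ (g.symm (x : AlgebraicClosure K)) = g.symm x := hσ ⟨_, h1⟩
  rw [h2, AlgEquiv.apply_symm_apply]

theorem stabE_eq [hN : Normal K N] (i : N →ₐ[K] AlgebraicClosure K) : stabE i = stabE N.val := by
  have h : i.fieldRange = N := AlgHom.fieldRange_of_normal i
  ext σ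
  constructor
  · intro hσ x
    have h1 : (x : AlgebraicClosure K) ∈ i.fieldRange := by
      rw [h]
      exact x.2
    obtain ⟨y, hy⟩ := h1
    change σ (x : AlgebraicClosure K) = x
    rw [← hy]
    exact hσ y
  · intro hσ x
    have h1 : i x ∈ N := by
      have h2 : i x ∈ i.fieldRange := ⟨x, rfl⟩
      rwa [h] at h2
    exact hσ ⟨i x, h1⟩

end

section
variable {K : Type} [Field K] [NumberField K] (M : Datum ℚ ℝ (GK K))

/-- the regulators over an extension `F` of `K` -/
def Reg (F : Type) [Field F] [Algebra K F] (c : ℝ) : Prop :=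
  ∃ i : F →ₐ[K] AlgebraicClosure K, IsReg M (stabE i) c

/-- the comparison of the Betti and de Rham structures over all extensions -/
structure GoodM : Prop where
  indep : IndepB M
  good : ∀ (F : Type) [Field F] [NumberField F] [Algebra K F] (i : F →ₐ[K] AlgebraicClosure K),
    GoodAt M (stabE i)

variable {M}
variable {N : IntermediateField K (AlgebraicClosure K)} [FiniteDimensional K N] [Normal K N]

theorem reg_sub (hM : GoodM M) {c₀ : ℝ} (hN : Reg M N c₀) {F : Type} [Field F] [NumberField F]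
    [Algebra K F] (i : F →ₐ[K] AlgebraicClosure K) (hi : i.fieldRange ≤ N) :
    ∃ c, IsReg M (stabE i) c := by
  obtain ⟨i₀, h0⟩ := hN
  rw [stabE_eq i₀] at h0
  have h1 : (stabE N.val).Normal := stabE_normal
  have h2 : (stabE N.val).FiniteIndex := finiteIndex _
  have h3 : NumberField N := NumberField.of_module_finite K N
  exact reg_descent hM.indep h0 (hM.good N N.val) (stabE_le hi) (hM.good F i)

/-- **The regulators in a relation.** -/
theorem reg_relK (hM : GoodM M) {c₀ : ℝ} (hN : Reg M N c₀) {ι : Type} [Fintype ι] {Z : ι → Ext K}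
    {n : ι → ℤ} (hZ : ∀ j, ∀ i : (Z j).F →ₐ[K] AlgebraicClosure K, i.fieldRange ≤ N)
    (h : Rel Z n) {c : ι → ℝ} (hc : ∀ j, Reg M (Z j).F (c j)) :
    ∃ q : ℚ, q ≠ 0 ∧ ∏ j, (c j) ^ (n j) = (q : ℝ) := by
  obtain ⟨i₀, h0⟩ := hN
  rw [stabE_eq i₀] at h0
  choose i hi using hc
  have h1 : (stabE N.val).Normal := stabE_normal
  have h2 : (stabE N.val).FiniteIndex := finiteIndex _
  have h3 : NumberField N := NumberField.of_module_finite K N
  exact datum_rel hM.indep h0 (hM.good N N.val).deR (fun j => stabE_le (hZ j (i j)))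
    (fun j => (hM.good (Z j).F (i j)).deR) (fun g => by
      rw [← h g]
      exact Finset.sum_congr rfl fun j _ => by rw [fxc_eq]) hi

end

end Pool.Agent.Q5.RG
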