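import Mathlib

/-! Rational intertwiners: two rational representations that are isomorphic over an extension field
are isomorphic. -/

set_option autoImplicit false
set_option linter.unusedSectionVars false

namespace Pool.Agent.Q5.RG

open scoped Classical

section
variable {k R G κ : Type} [Field k] [CharZero k] [Field R] [Algebra k R] [Group G] [Fintype G]
  [Fintype κ]

/-- the mean value of a matrix -/
noncomputable def avg (A B : G →* Matrix κ κ k) (E : Matrix κ κ k) : Matrix κ κ k :=
  ∑ g : G, B g * E * A g⁻¹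

theorem avg_comm (A B : G →* Matrix κ κ k) (E : Matrix κ κ k) (h : G) :
    avg A B E * A h = B h * avg A B E := by
  unfold avg
  rw [Finset.sum_mul, Finset.mul_sum, ← Equiv.sum_comp (Equiv.mulLeft h)]
  refine Finset.sum_congr rfl fun g _ => ?_
  change B (h * g) * E * A (h * g)⁻¹ * A h = B h * (B g * E * A g⁻¹)
  rw [mul_inv_rev, map_mul, map_mul]
  have h1 : A h⁻¹ * A h = 1 := by rw [← map_mul, inv_mul_cancel, map_one]
  rw [mul_assoc (B h * B g * E), mul_assoc (A g⁻¹), h1, mul_one, mul_assoc, mul_assoc, mul_assoc]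

/-- **Noether–Deuring.** -/
theorem exists_rat (A B : G →* Matrix κ κ k) (D : Matrix κ κ R) (hD : D.det ≠ 0)
    (h : ∀ g, D * (A g).map (algebraMap k R) = (B g).map (algebraMap k R) * D) :
    ∃ Φ : Matrix κ κ k, Φ.det ≠ 0 ∧ ∀ g, Φ * A g = B g * Φ := by
  let E : κ × κ → Matrix κ κ k := fun p => avg A B (Matrix.single p.1 p.2 1)
  let P : Matrix κ κ (MvPolynomial (κ × κ) k) :=
    Matrix.of fun a b => ∑ p, MvPolynomial.X p * MvPolynomial.C (E p a b)
  have hPD : (Nat.card G : R) • D = ∑ p : κ × κ, D p.1 p.2 • (E p).map (algebraMap k R) := by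
    have h1 : ∀ p : κ × κ, (E p).map (algebraMap k R) = ∑ g : G, (B g).map (algebraMap k R) *
        Matrix.single p.1 p.2 1 * (A g⁻¹).map (algebraMap k R) := by
      intro p
      change (∑ g : G, B g * Matrix.single p.1 p.2 1 * A g⁻¹).map (algebraMap k R) = _
      have h2 := map_sum ((algebraMap k R).mapMatrix (m := κ)) (fun g : G =>
        B g * Matrix.single p.1 p.2 1 * A g⁻¹) Finset.univ
      rw [RingHom.mapMatrix_apply] at h2
      rw [h2]
      refine Finset.sum_congr rfl fun g _ => ?_
      rw [map_mul, map_mul]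
      simp only [RingHom.mapMatrix_apply]
      congr 2
      rw [Matrix.map_single, map_one]
    have h3 : ∀ g : G, (B g).map (algebraMap k R) * D * (A g⁻¹).map (algebraMap k R) = D := by
      intro g
      rw [← h g, mul_assoc]
      have h4 : (A g).map (algebraMap k R) * (A g⁻¹).map (algebraMap k R) = 1 := by
        rw [← Matrix.map_mul, ← map_mul, mul_inv_cancel, map_one]
        simp
      rw [h4, mul_one]
    have h5 : ∑ p : κ × κ, D p.1 p.2 • Matrix.single p.1 p.2 (1 : R) = D := by
      rw [Fintype.sum_prod_type]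
      conv_rhs => rw [Matrix.matrix_eq_sum_single D]
      refine Finset.sum_congr rfl fun a _ => Finset.sum_congr rfl fun b _ => ?_
      rw [Matrix.smul_single, smul_eq_mul, mul_one]
    calc (Nat.card G : R) • D = ∑ g : G, D := by
          rw [Finset.sum_const, Finset.card_univ, Nat.card_eq_fintype_card, Nat.cast_smul_eq_nsmul]
      _ = ∑ g : G, (B g).map (algebraMap k R) * (∑ p : κ × κ, D p.1 p.2 •
            Matrix.single p.1 p.2 (1 : R)) * (A g⁻¹).map (algebraMap k R) := by
          refine Finset.sum_congr rfl fun g _ => ?_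
          rw [h5, h3 g]
      _ = ∑ p : κ × κ, D p.1 p.2 • (E p).map (algebraMap k R) := by
          simp only [h1, Finset.smul_sum, Finset.mul_sum, Finset.sum_mul]
          rw [Finset.sum_comm]
          refine Finset.sum_congr rfl fun p _ => Finset.sum_congr rfl fun g _ => ?_
          rw [Matrix.mul_smul, Matrix.smul_mul]
  have hev : ∀ (S : Type) [Field S] [Algebra k S] (x : κ × κ → S),
      MvPolynomial.aeval x P.det = (∑ p : κ × κ, x p • (E p).map (algebraMap k S)).det := by
    intro S _ _ x
    rw [AlgHom.map_det]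
    congr 1
    ext a b
    rw [AlgHom.mapMatrix_apply, Matrix.map_apply]
    change MvPolynomial.aeval x (∑ p, MvPolynomial.X p * MvPolynomial.C (E p a b)) = _
    rw [map_sum, Matrix.sum_apply]
    refine Finset.sum_congr rfl fun p _ => ?_
    rw [map_mul, MvPolynomial.aeval_X, MvPolynomial.aeval_C, Matrix.smul_apply, Matrix.map_apply,
      smul_eq_mul]
  have hP0 : P.det ≠ 0 := by
    intro h0
    have h1 := hev R (fun p => D p.1 p.2)
    rw [h0, map_zero, ← hPD, Matrix.det_smul] at h1
    have hR : CharZero R := charZero_of_injective_algebraMap (algebraMap k R).injective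
    have h2 : (Nat.card G : R) ≠ 0 := by exact_mod_cast Nat.card_pos.ne'
    exact mul_ne_zero (pow_ne_zero _ h2) hD h1.symm
  have hk : Infinite k := inferInstance
  obtain ⟨x, hx⟩ : ∃ x : κ × κ → k, MvPolynomial.eval x P.det ≠ 0 := by
    by_contra hcon
    push Not at hcon
    exact hP0 (MvPolynomial.funext fun x => by rw [hcon x, map_zero])
  refine ⟨∑ p, x p • E p, ?_, fun g => ?_⟩
  · have h1 := hev k x
    rw [MvPolynomial.aeval_eq_eval] at h1
    have h2 : ∑ p : κ × κ, x p • (E p).map (algebraMap k k) = ∑ p, x p • E p := by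
      refine Finset.sum_congr rfl fun p _ => ?_
      congr 1
    rw [h2] at h1
    rw [← h1]
    exact hx
  · rw [Finset.sum_mul, Finset.mul_sum]
    refine Finset.sum_congr rfl fun p _ => ?_
    rw [Matrix.smul_mul, Matrix.mul_smul, avg_comm]

end

end Pool.Agent.Q5.RG
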