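import Pool.Agent.Q5.RG.Fam
import Pool.Agent.Q5.VL.Cen

/-! Values and leading coefficients of the L-functions of projective varieties at integers. -/

set_option autoImplicit false
set_option linter.unusedSectionVars false

namespace Pool.Agent.Q5.RG

open NumberField IsDedekindDomain Filter Topology Polynomial Pool.Agent.W353.NF
  Pool.Agent.W401.Cheb Pool.Agent.Q5.BR Pool.Agent.Q5.VL
open Pool.Agent.W353.EF (IsFrobenius LFun cone)
open scoped Classical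

section
variable {F : Type} [Field F] [NumberField F]

/-- extension of scalars -/
noncomputable def mp (B : HeightOneSpectrum (𝓞 F) → ℚ[X]) (v : HeightOneSpectrum (𝓞 F)) : ℂ[X] :=
  (B v).map (algebraMap ℚ ℂ)

theorem ev_mp (B : HeightOneSpectrum (𝓞 F) → ℚ[X]) (w : HeightOneSpectrum (𝓞 F)) (m : ℤ) :
    ev (mp B) w (m : ℂ) = (((B w).eval ((Ideal.absNorm w.asIdeal : ℚ) ^ (-m)) : ℚ) : ℂ) := by
  unfold ev mp
  have h1 : ((Ideal.absNorm w.asIdeal : ℕ) : ℂ) ^ (-(m : ℂ)) =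
      algebraMap ℚ ℂ ((Ideal.absNorm w.asIdeal : ℚ) ^ (-m)) := by
    have h2 : (-(m : ℂ)) = ((-m : ℤ) : ℂ) := by push_cast; rfl
    rw [h2, Complex.cpow_intCast]
    simp
  rw [h1, Polynomial.eval_map, Polynomial.eval₂_at_apply]
  rfl

theorem ev_mp_ne {B : HeightOneSpectrum (𝓞 F) → ℚ[X]} {m : ℤ}
    (h : ∀ v, (B v).eval ((Ideal.absNorm v.asIdeal : ℚ) ^ (-m)) ≠ 0) (w : HeightOneSpectrum (𝓞 F)) :
    ev (mp B) w (m : ℂ) ≠ 0 := by
  rw [ev_mp]
  exact_mod_cast h w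

end

section
variable {K : Type} [Field K] [NumberField K] {n : ℕ} (X : Set (MvPolynomial (Fin n) (𝓞 K)))
  (d i N : ℕ) (m : ℤ)

/-- the value at `m` -/
def ValA (F : Type) [Field F] [NumberField F] [Algebra K F] (ℓ : ℂ) : Prop :=
  ∃ B : HeightOneSpectrum (𝓞 F) → ℚ[X], AE X d i N (mp B) ∧
    (∀ v, (B v).eval ((Ideal.absNorm v.asIdeal : ℚ) ^ (-m)) ≠ 0) ∧ ℓ = LFun (mp B) m

/-- the leading coefficient at `m` -/
def ValB (Ω : Set ℂ) (F : Type) [Field F] [NumberField F] [Algebra K F] (ℓ : ℂ) : Prop :=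
  ∃ B : HeightOneSpectrum (𝓞 F) → ℚ[X], IsSys X d i N (mp B) ∧
    (∀ v, (B v).eval ((Ideal.absNorm v.asIdeal : ℚ) ^ (-m)) ≠ 0) ∧
    ∃ f : ℂ → ℂ, MeromorphicOn f Ω ∧ (∃ c : ℝ, ∀ s : ℂ, c < s.re → f s = LFun (mp B) s) ∧
      ℓ = meromorphicTrailingCoeffAt f m

variable {X d i N m}

/-- the finite part is rational -/
theorem RF_rat {ι : Type} [Fintype ι] {Y : ι → Ext K} (a : ι → ℤ)
    {B₀ : HeightOneSpectrum (𝓞 K) → ℂ[X]} {B : ∀ j, HeightOneSpectrum (𝓞 (Y j).F) → ℚ[X]}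
    (hB : ∀ j v, (B j v).eval ((Ideal.absNorm v.asIdeal : ℚ) ^ (-m)) ≠ 0)
    (S : Finset (HeightOneSpectrum (𝓞 K))) :
    ∃ q : ℚ, q ≠ 0 ∧ RF a 0 B₀ (fun j => mp (B j)) S (m : ℂ) = q := by
  refine ⟨∏ v ∈ S, ∏ j, (∏ w ∈ above (Y j).F v,
    ((B j w).eval ((Ideal.absNorm w.asIdeal : ℚ) ^ (-m)))⁻¹) ^ (-a j), ?_, ?_⟩
  · refine Finset.prod_ne_zero_iff.2 fun v _ => Finset.prod_ne_zero_iff.2 fun j _ =>
      zpow_ne_zero _ (Finset.prod_ne_zero_iff.2 fun w _ => inv_ne_zero (hB j w))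
  · unfold RF
    push_cast
    refine Finset.prod_congr rfl fun v _ => ?_
    rw [zpow_zero, one_mul]
    refine Finset.prod_congr rfl fun j _ => ?_
    congr 1
    refine Finset.prod_congr rfl fun w _ => ?_
    rw [ev_mp]

/-- the values right of the strip -/
noncomputable def valsA (hi : i ≤ 2 * d) (hm : (i : ℝ) / 2 + 1 < m)
    (hX : ∀ (F : Type) [Field F] [NumberField F] [Algebra K F], ∃ ℓ, ValA X d i N m F ℓ) :
    Vals K where
  Val := fun F _ _ _ ℓ => ValA X d i N m F ℓ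
  ex := hX
  ne := by
    rintro F _ _ _ ℓ ⟨B, hB, hB0, rfl⟩
    refine (good_right hB ?_ (ev_mp_ne hB0)).ne_zero
    rw [Complex.intCast_re]
    exact hm
  rel := by
    intro ι _ Z a h ℓ hℓ
    choose B hB hB0 hBℓ using hℓ
    obtain ⟨ℓ₀, B₀, hB₀, hB₀0, -⟩ := hX K
    have hre : (i : ℝ) / 2 + 1 < ((m : ℂ)).re := by
      rw [Complex.intCast_re]
      exact hm
    have h' : ∀ σ : GK K, ∑ j, a j * (fixn K (Z j).F σ : ℤ) = 0 := h
    obtain ⟨S, hS⟩ := sys_pow_good h' hi hB₀ hB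
    have h1 := hS m (good_right hB₀ hre (ev_mp_ne hB₀0))
      (fun j => good_right (hB j) hre (ev_mp_ne (hB0 j)))
    obtain ⟨q, hq, h2⟩ := RF_rat (m := m) a (B₀ := mp B₀) hB0 S
    refine ⟨q⁻¹, inv_ne_zero hq, ?_⟩
    rw [zpow_zero, h2] at h1
    have h3 : ∏ j, (ℓ j) ^ (a j) = ∏ j, (LFun (mp (B j)) m) ^ (a j) :=
      Finset.prod_congr rfl fun j _ => by rw [hBℓ j]
    rw [h3]
    push_cast
    exact eq_inv_of_mul_eq_one_right h1.symm

/-- the identity theorem -/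
theorem ident {Ω : Set ℂ} {s₁ : ℂ} (hΩ : IsDom Ω s₁) {f g : ℂ → ℂ} (hf : MeromorphicOn f Ω)
    (hg : MeromorphicOn g Ω) {c : ℝ} (h : ∀ s : ℂ, c < s.re → f s = g s) :
    f =ᶠ[𝓝[≠] s₁] g := by
  obtain ⟨hpre, h1, c₃, hhalf⟩ := hΩ
  have hconn : IsConnected Ω := ⟨⟨s₁, h1⟩, hpre⟩
  have hd : MeromorphicOn (fun s => f s - g s) Ω := fun s hs => (hf s hs).fun_sub (hg s hs)
  set c' := max c c₃ with hc
  have hopen : IsOpen {s : ℂ | c' < s.re} := isOpen_lt continuous_const Complex.continuous_re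
  have hp : c' < (((c' + 1 : ℝ)) : ℂ).re := by rw [Complex.ofReal_re]; linarith
  have h2 : meromorphicOrderAt (fun s => f s - g s) ((c' + 1 : ℝ) : ℂ) = ⊤ := by
    rw [meromorphicOrderAt_eq_top_iff]
    have h2' : ({s : ℂ | c' < s.re} : Set ℂ) ∈ 𝓝 (((c' + 1 : ℝ)) : ℂ) := hopen.mem_nhds hp
    filter_upwards [mem_nhdsWithin_of_mem_nhds h2'] with s hs
    rw [h s ((le_max_left _ _).trans_lt hs), sub_self]
  have h3 : meromorphicOrderAt (fun s => f s - g s) s₁ = ⊤ := by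
    by_contra h4
    have h5 := (hd.exists_meromorphicOrderAt_ne_top_iff_forall hconn).1 ⟨⟨s₁, h1⟩, h4⟩
    exact h5 ⟨_, hhalf _ ((le_max_right _ _).trans_lt hp)⟩ h2
  rw [meromorphicOrderAt_eq_top_iff] at h3
  filter_upwards [h3] with s hs
  exact sub_eq_zero.1 hs

theorem RF_mer {ι : Type} [Fintype ι] {Y : ι → Ext K} (a : ι → ℤ) (m : ℤ)
    {B₀ : HeightOneSpectrum (𝓞 K) → ℂ[X]} {B : ∀ j, HeightOneSpectrum (𝓞 (Y j).F) → ℂ[X]}
    (S : Finset (HeightOneSpectrum (𝓞 K))) (s : ℂ) : MeromorphicAt (RF a m B₀ B S) s := by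
  have hm : ∀ (F : Type) [Field F] [NumberField F] (B : HeightOneSpectrum (𝓞 F) → ℂ[X])
      (w : HeightOneSpectrum (𝓞 F)), MeromorphicAt (fun s => (ev B w s)⁻¹) s :=
    fun F _ _ B w => ((differentiable_ev B w).analyticAt s).meromorphicAt.fun_inv
  unfold RF
  refine MeromorphicAt.fun_prod fun v _ => ?_
  refine MeromorphicAt.fun_mul ?_ (MeromorphicAt.fun_prod fun j _ => ?_)
  · exact (MeromorphicAt.fun_prod fun w _ => hm _ _ _).fun_zpow _
  · exact (MeromorphicAt.fun_prod fun w _ => hm _ _ _).fun_zpow _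

/-- the leading coefficients -/
noncomputable def valsB (hi : i ≤ 2 * d) {Ω : Set ℂ} (hΩ : IsDom Ω (m : ℂ))
    (hX : ∀ (F : Type) [Field F] [NumberField F] [Algebra K F], ∃ ℓ, ValB X d i N m Ω F ℓ) :
    Vals K where
  Val := fun F _ _ _ ℓ => ValB X d i N m Ω F ℓ
  ex := hX
  ne := by
    rintro F _ _ _ ℓ ⟨B, hB, hB0, f, hf, ⟨c, hc⟩, rfl⟩
    obtain ⟨c₀, u, -, hu, hu2, hev⟩ := tame hB
    refine MeromorphicAt.meromorphicTrailingCoeffAt_ne_zero (hf _ hΩ.2.1) fun htop => ?_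
    -- the function would be zero
    obtain ⟨hpre, h1, c₃, hhalf⟩ := hΩ
    have hconn : IsConnected Ω := ⟨⟨_, h1⟩, hpre⟩
    set c' := max c (max c₀ c₃) with hc'
    have hp : c' < (((c' + 1 : ℝ)) : ℂ).re := by rw [Complex.ofReal_re]; linarith
    have hopen : IsOpen {s : ℂ | c' < s.re} := isOpen_lt continuous_const Complex.continuous_re
    have h2 : meromorphicOrderAt f ((c' + 1 : ℝ) : ℂ) = ⊤ := by
      by_contra h4
      have h5 := (hf.exists_meromorphicOrderAt_ne_top_iff_forall hconn).1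
        ⟨⟨_, hhalf _ (((le_max_right _ _).trans (le_max_right _ _)).trans_lt hp)⟩, h4⟩
      exact h5 ⟨_, h1⟩ htop
    rw [meromorphicOrderAt_eq_top_iff] at h2
    have h2' : ({s : ℂ | c' < s.re} : Set ℂ) ∈ 𝓝 (((c' + 1 : ℝ)) : ℂ) := hopen.mem_nhds hp
    obtain ⟨s, hs, hs'⟩ := (h2.and (mem_nhdsWithin_of_mem_nhds h2')).exists
    rw [hc s ((le_max_left _ _).trans_lt hs')] at hs
    rw [LFun_exp hu hu2 (hev s (((le_max_left _ _).trans (le_max_right _ _)).trans_lt hs'))] at hs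
    exact Complex.exp_ne_zero _ hs
  rel := by
    intro ι _ Z a h ℓ hℓ
    choose B hB hB0 f hf hfc hBℓ using hℓ
    choose c hfc using hfc
    obtain ⟨ℓ₀, B₀, hB₀, hB₀0, -⟩ := hX K
    have h' : ∀ σ : GK K, ∑ j, a j * (fixn K (Z j).F σ : ℤ) = 0 := h
    obtain ⟨S, c', hS⟩ := sys_pow h' hi hB₀ hB
    have hRF := RF_analytic (Y := Z) a 0 (B := fun j => mp (B j)) S (ev_mp_ne hB₀0)
      (fun j w => ev_mp_ne (hB0 j) w)
    obtain ⟨q, hq, h2⟩ := RF_rat (m := m) a (B₀ := mp B₀) hB0 S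
    have hmer : MeromorphicOn (fun s => RF a 0 (mp B₀) (fun j => mp (B j)) S s *
        ∏ j, (f j s) ^ (a j)) Ω := fun s hs =>
      (RF_mer a 0 S s).fun_mul (MeromorphicAt.fun_prod fun j _ => (hf j s hs).fun_zpow _)
    have hid := ident (f := fun s => RF a 0 (mp B₀) (fun j => mp (B j)) S s *
        ∏ j, (f j s) ^ (a j)) (g := fun _ => 1) (c := max c' (∑ j, |c j|)) hΩ hmer
      (fun s _ => MeromorphicAt.const _ _) (by
        intro s hs
        have hs0 : c' < s.re := (le_max_left _ _).trans_lt hs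
        have hsj : ∀ j, c j < s.re := by
          intro j
          refine ((le_abs_self _).trans ?_).trans_lt ((le_max_right _ _).trans_lt hs)
          exact Finset.single_le_sum (f := fun j => |c j|) (fun _ _ => abs_nonneg _)
            (Finset.mem_univ j)
        have h3 := hS s hs0
        rw [zpow_zero] at h3
        change RF a 0 (mp B₀) (fun j => mp (B j)) S s * ∏ j, (f j s) ^ (a j) = 1
        rw [h3]
        congr 1
        exact Finset.prod_congr rfl fun j _ => by rw [hfc j s (hsj j)])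
    have htc := meromorphicTrailingCoeffAt_congr_nhdsNE hid
    rw [meromorphicTrailingCoeffAt_const] at htc
    rw [MeromorphicAt.meromorphicTrailingCoeffAt_fun_mul (RF_mer a 0 S _)
      (MeromorphicAt.fun_prod fun j _ => (hf j _ hΩ.2.1).fun_zpow _),
      AnalyticAt.meromorphicTrailingCoeffAt_of_ne_zero hRF.1 hRF.2, h2,
      meromorphicTrailingCoeffAt_fun_prod (fun j _ => (hf j _ hΩ.2.1).fun_zpow _)] at htc
    refine ⟨q⁻¹, inv_ne_zero hq, ?_⟩
    push_cast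
    refine eq_inv_of_mul_eq_one_right ?_
    rw [← htc]
    congr 1
    refine Finset.prod_congr rfl fun j _ => ?_
    rw [hBℓ j, (hf j _ hΩ.2.1).meromorphicTrailingCoeffAt_fun_zpow]

end

end Pool.Agent.Q5.RG
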